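import Pool.Agent.H918.G.PtInf
import Pool.Agent.H918.G.ExistsDisc
import Pool.Agent.H918.G.PtForm
import Pool.Agent.H918.G.ExistsChart
import Pool.Agent.H918.G.Two
import Pool.Agent.H918.G.PuiseuxInf
import Pool.Agent.H918.G.DiscDerivAll
import Pool.Agent.H918.G.BoundFin
import Pool.Agent.H918.G.BoundInf
import Pool.Agent.H918.G.ExistsModel
import Pool.Agent.H918.G.ExistsSepoff
import Pool.Agent.H918.G.ExistsDz
import Pool.Agent.H918.G.EtaReg
import Pool.Agent.H918.G.ExistsPt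
import Pool.Agent.H918.G.TauLoc
import Pool.Agent.H918.G.TauInf
import Pool.Agent.H918.G.WeierRel
import Pool.Agent.H918.G.DiscrNe
import Pool.Agent.H918.G.EqOfTau
import Pool.Agent.H918.G.Geo
import Pool.Agent.H918.D.Sab

/-! Pointed maps with arbitrary values in Brody hyperbolic surfaces over elliptic curves: two of infinitely many
have the same composition with the map to the curve. -/

set_option autoImplicit false

namespace Pool.Agent.H918.PF.H234P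

open Polynomial FF Pool.Agent.W603.LV Pool.Agent.W603.PV Pool.Agent.W602.GT Pool.Agent.N154.GG
open Filter Topology Metric
open Pool.Agent.W602.RG (HasValue PointedMaps)
open Pool.Agent.Y216 (OnVar)
open Pool.Agent.H918.SS (ProjVariety HasReduction rep_mk cone_smulF)
open Pool.Agent.H918.SS.H665p (tor)
open scoped Polynomial.Bivariate LinearAlgebra.Projectivization

theorem s_bfin : S_BFIN := by
  intro L _ _ _ c ev P hM h hh r
  exact bound_fin hM hh r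

theorem s_binf : S_BINF := by
  intro L _ _ _ c ev P hM h hh
  exact bound_inf hM hh

section Unif

variable {L : Type} [Field L] [Algebra ℂ L] {c : Place ℂ L} {ev : ℂ[X][Y] →ₐ[ℂ] L} {P : ℂ[X][Y]}
  {B₀ : Finset ℂ} {n : ℕ} {ι : Type} {F : ι → MvPolynomial (Fin (n + 1)) ℂ} {Λ : PeriodPair}
  {α : (Fin (n + 1) → ℂ) → ℂ ⧸ Λ.lattice} {A : Fin 3 → MvPolynomial (Fin (n + 1)) ℂ}

/-- local lifts of the compositions of holomorphic maps with the map to the elliptic curve -/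
theorem tor_lift (hF : ∀ i, IsForm (F i)) (hα : HolToTorus (Cone F) Λ α) {U : Set ℂ} (hU : IsOpen U)
    {f : ℂ → ℙ ℂ (Fin (n + 1) → ℂ)} (hf : HolMapOn U f) (hfF : ∀ z ∈ U, (f z).rep ∈ Cone F) {z : ℂ}
    (hz : z ∈ U) : ∃ β : ℂ → ℂ, AnalyticAt ℂ β z ∧
      ∀ᶠ w in 𝓝 z, α (f w).rep = Submodule.Quotient.mk (β w) := by
  obtain ⟨l, hl, hlf⟩ := Pool.Agent.H918.SS.H665p.lift hf hz
  have hlz : l z ∈ Cone F := by
    obtain ⟨-, c, hc, h1⟩ := hlf.self_of_nhds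
    rw [h1]
    exact cone_smulF hF (hfF z hz) hc
  obtain ⟨a, ha, hae⟩ := tor hα hl hlz
  refine ⟨a, ha, ?_⟩
  filter_upwards [hlf, hae, hU.mem_nhds hz] with w h1 h2 hwU
  obtain ⟨-, c, hc, h3⟩ := h1
  have h4 := hfF w hwU
  rw [← h2 (by rw [h3]; exact cone_smulF hF h4 hc), h3, hα.homog _ h4 c hc]

/-- rescaling of holomorphic maps -/
theorem hol_scale {ρ : ℝ} (hρ : 0 < ρ) {f : ℂ → ℙ ℂ (Fin (n + 1) → ℂ)} (hf : HolMapOn (ball 0 ρ) f) :
    HolMapOn (ball 0 1) fun t => f ((ρ : ℂ) * t) := by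
  intro z hz
  have hz' : (ρ : ℂ) * z ∈ ball (0 : ℂ) ρ := by
    rw [mem_ball_zero_iff] at hz ⊢
    rw [norm_mul, Complex.norm_real, Real.norm_of_nonneg hρ.le]
    nlinarith
  obtain ⟨V, g, hV, hzV, hg, hgf⟩ := hf _ hz'
  refine ⟨(fun t : ℂ => (ρ : ℂ) * t) ⁻¹' V, fun t => g ((ρ : ℂ) * t),
    hV.preimage (continuous_const.mul continuous_id), hzV, ?_, fun w hw => hgf _ hw⟩
  exact hg.comp ((differentiable_const _).mul differentiable_id).differentiableOn fun w hw => hw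

/-- **The uniform bound.** -/
theorem unif_bound_all (hBI : S_BINF) [IsFF ℂ L] (hM : Model c ev P) (hs : SepOff P B₀)
    (hF : ∀ i, IsForm (F i)) (hα : HolToTorus (Cone F) Λ α)
    (hBr : ∀ f, HolIn F f → ∀ z w, f z = f w) {x : Fin (n + 1) → ℂ} (hx : x ∈ Cone F) (u₀ : ℂ) :
    ∃ (U : Set ℂ) (g₀ : ℂ → ℂ) (K : ℝ), IsOpen U ∧ U.Nonempty ∧ Branch P U g₀ ∧ 0 ≤ K ∧
      ∀ (R : Fin (n + 1) → ℂ[X][Y]) (T : ℂ → ℂ → ℙ ℂ (Fin (n + 1) → ℂ)), Pt P B₀ R T →
        ∀ k : Fin (n + 1), ev (R k) ≠ 0 → (∀ i, val (fun k => ev (R k)) (F i) = 0) →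
        HasValue c x (fun k => ev (R k)) → ∀ η : L,
        Ell ev P B₀ Λ u₀ η (fun z y => α (T z y).rep) → ∀ (R' : ℂ[X][Y]) (S' : ℂ[X]),
          η * ev (C S') = ev R' → ∀ z ∈ U, S'.eval z ≠ 0 →
            ‖evalEval z (g₀ z) R'‖ ≤ K * ‖S'.eval z‖ := by
  obtain ⟨N, ρ, a, hN, hρ, ha, ham, har⟩ := puiseux_inf hM.monic hM.pos hs
  obtain ⟨q, hq⟩ : ∃ q, q = Projectivization.mk ℂ x hx.1 := ⟨_, rfl⟩
  obtain ⟨a0, ha0, hqr⟩ := rep_mk hx.1
  rw [← hq] at hqr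
  have hqF : q.rep ∈ Cone F := by
    rw [hqr]
    exact cone_smulF hF hx ha0
  obtain ⟨κ, K, hκ, hκ1, hK, hdisc⟩ := disc_deriv_all hF hα hBr
  have hκρ : 0 < κ * ρ := mul_pos hκ hρ
  obtain ⟨U, s, K', hU, hUne, hK', hsd, hsU⟩ := exists_chart hN hκρ
  have hsub : ball (0 : ℂ) (κ * ρ) \ {0} ⊆ ball (0 : ℂ) ρ \ {0} := by
    refine Set.sdiff_subset_sdiff_left (ball_subset_ball ?_)
    nlinarith
  have hUB : ∀ z ∈ U, z ∉ B₀ := by
    intro z hz
    have h1 := (har (s z) (hsub (hsU z hz).1)).1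
    rwa [(hsU z hz).2.1] at h1
  have hg₀ : Branch P U (fun z => a (s z)) := by
    refine ⟨ha.comp hsd fun z hz => hsub (hsU z hz).1, fun z hz => ?_⟩
    have h1 := (har (s z) (hsub (hsU z hz).1)).2
    rwa [(hsU z hz).2.1] at h1
  refine ⟨U, fun z => a (s z), K / ρ * K', hU, hUne, hg₀, by positivity, ?_⟩
  intro R T hT k hk hFR hval η hE R' S' hRS z hz hS
  obtain ⟨j, hj⟩ := Function.ne_iff.1 hx.1
  have hj : x j ≠ 0 := hj
  have hinf := fun (ε : ℝ) (hε : 0 < ε) => pt_inf hBI hM hval hk hj hε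
  obtain ⟨φ, hφ, hφ0, hφt⟩ := exists_disc hM hs hT hk hx.1 hj hinf hN hρ ha ham har
  have hTF : ∀ z y : ℂ, z ∉ B₀ → evalEval z y P = 0 → (T z y).rep ∈ Cone F := fun z y hz hy =>
    ⟨(T z y).rep_nonzero, fun i => pt_form hM hs hT hk (hF i) (hFR i) hz hy⟩
  have hφF : ∀ t ∈ ball (0 : ℂ) ρ, (φ t).rep ∈ Cone F := by
    intro t ht
    by_cases h0 : t = 0
    · rw [h0, hφ0, ← hq]
      exact hqF
    · rw [hφt t ⟨ht, h0⟩]
      exact hTF _ _ (har t ⟨ht, h0⟩).1 (har t ⟨ht, h0⟩).2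
  -- the derivative at `s z`
  obtain ⟨hsz, hsz2, hsz3⟩ := hsU z hz
  have hszρ := hsub hsz
  obtain ⟨b, hb, hbe⟩ := tor_lift hF hα isOpen_ball hφ hφF hszρ.1
  have hρ' : (ρ : ℂ) ≠ 0 := by exact_mod_cast hρ.ne'
  have hbd : ‖deriv b (s z)‖ ≤ K / ρ := by
    have h1 := hdisc (fun t => φ ((ρ : ℂ) * t)) (hol_scale hρ hφ) (by
      intro t ht
      refine hφF _ ?_
      rw [mem_ball_zero_iff] at ht ⊢
      rw [norm_mul, Complex.norm_real, Real.norm_of_nonneg hρ.le]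
      nlinarith) (s z / ρ) (by
        rw [mem_ball_zero_iff, norm_div, Complex.norm_real, Real.norm_of_nonneg hρ.le,
          div_lt_iff₀ hρ]
        exact mem_ball_zero_iff.1 hsz.1) (fun t => b ((ρ : ℂ) * t)) ?_ ?_
    · have e : deriv (fun t => b ((ρ : ℂ) * t)) (s z / ρ) = ρ * deriv b (s z) := by
        have h2 : HasDerivAt (fun t : ℂ => (ρ : ℂ) * t) (ρ : ℂ) (s z / ρ) := by
          simpa using (hasDerivAt_id (s z / ρ)).const_mul (ρ : ℂ)
        have h3 : HasDerivAt b (deriv b (s z)) ((ρ : ℂ) * (s z / ρ)) := by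
          rw [mul_div_cancel₀ _ hρ']
          exact hb.differentiableAt.hasDerivAt
        have h4 := h3.comp (s z / ρ) h2
        rw [show (fun t => b ((ρ : ℂ) * t)) = b ∘ fun t : ℂ => (ρ : ℂ) * t from rfl, h4.deriv]
        ring
      rw [e, norm_mul, Complex.norm_real, Real.norm_of_nonneg hρ.le] at h1
      rw [le_div_iff₀ hρ]
      linarith
    · refine AnalyticAt.fun_comp (g := b) (f := fun t : ℂ => (ρ : ℂ) * t) ?_
        (analyticAt_const.mul analyticAt_id)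
      rw [mul_div_cancel₀ _ hρ']
      exact hb
    · have h2 : ContinuousAt (fun t : ℂ => (ρ : ℂ) * t) (s z / ρ) :=
        (continuous_const.mul continuous_id).continuousAt
      have h6 : ∀ᶠ w in 𝓝 ((ρ : ℂ) * (s z / ρ)), α (φ w).rep = Submodule.Quotient.mk (b w) := by
        rw [mul_div_cancel₀ _ hρ']
        exact hbe
      exact h2.eventually h6
  -- comparison of the lifts
  obtain ⟨β, hβ, hβe⟩ := hE.loc U _ hU hUB hg₀ z hz
  have hsdz : DifferentiableAt ℂ s z := hsd.differentiableAt (hU.mem_nhds hz)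
  have hcomp : ∀ᶠ w in 𝓝 z, b (s w) - β w = b (s z) - β z := by
    have h1 : ∀ᶠ w in 𝓝 z, α (φ (s w)).rep = Submodule.Quotient.mk (b (s w)) :=
      hsdz.continuousAt.eventually hbe
    refine lat_const Λ (f := fun w => b (s w) - β w) ?_ ?_
    · exact (ContinuousAt.comp (f := s) (g := b) hb.continuousAt hsdz.continuousAt).sub
        hβ.continuousAt
    · filter_upwards [h1, hβe, hU.mem_nhds hz] with w hw1 hw2 hwU
      obtain ⟨h3, h4, -⟩ := hsU w hwU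
      have h5 := hφt (s w) (hsub h3)
      rw [h4] at h5
      rw [h5] at hw1
      rw [Submodule.Quotient.mk_sub, ← hw1, ← hw2.1, sub_self]
  have hder : deriv β z = deriv b (s z) * deriv s z := by
    have h1 : β =ᶠ[𝓝 z] fun w => b (s w) - (b (s z) - β z) := by
      filter_upwards [hcomp] with w hw
      rw [← hw]
      ring
    rw [h1.deriv_eq]
    have h2 : HasDerivAt (fun w => b (s w)) (deriv b (s z) * deriv s z) z :=
      hb.differentiableAt.hasDerivAt.comp z hsdz.hasDerivAt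
    exact (h2.sub_const _).deriv
  have h1 := hβe.self_of_nhds.2 R' S' hRS
  rw [← h1, hder, norm_mul, norm_mul, mul_comm]
  refine mul_le_mul_of_nonneg_right ?_ (norm_nonneg _)
  exact mul_le_mul hbd hsz3 (norm_nonneg _) (by positivity)

end Unif

section Two

variable {L : Type} [Field L] [Algebra ℂ L] {c : Place ℂ L} {n : ℕ} {ι : Type}
  {F : ι → MvPolynomial (Fin (n + 1)) ℂ} {Λ : PeriodPair}
  {α : (Fin (n + 1) → ℂ) → ℂ ⧸ Λ.lattice} {A : Fin 3 → MvPolynomial (Fin (n + 1)) ℂ}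
  {K : Type} [Field K] [Algebra ℂ K] {y : Fin (n + 1) → K}

/-- **Two of infinitely many pointed maps have the same composition with the map to the elliptic
curve.** -/
theorem two_maps_all' [IsFF ℂ L] (hX : ProjVariety F 2 y) (hα : HolToTorus (Cone F) Λ α)
    (hA : WForms F Λ α A) (hBr : ∀ f, HolIn F f → ∀ z w, f z = f w)
    {x : Fin (n + 1) → ℂ} (hx : x ∈ Cone F) {W : Set (Fin (n + 1) → L)} (hW : W.Infinite)
    (hW0 : ∀ f ∈ W, OnVar ℂ y f ∧ HasValue c x f ∧ val f (A 0) ≠ 0 ∧ val f (A 2) ≠ 0) :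
    ∃ f ∈ W, ∃ f' ∈ W, f ≠ f' ∧ ∀ i j, val f (A i) * val f' (A j) =
      val f (A j) * val f' (A i) := by
  classical
  have hF := hX.form
  have hW1 : ∀ f ∈ W, OnVar ℂ y f ∧ HasValue c x f := fun f hf => ⟨(hW0 f hf).1, (hW0 f hf).2.1⟩
  obtain ⟨ev, P, hM⟩ := exists_model c
  obtain ⟨B₀, hs⟩ := exists_sepOff hM
  obtain ⟨D, hD⟩ := exists_dz hM
  have hD0 : D ≠ 0 := by
    rintro rfl
    simp at hD
  obtain ⟨e, he⟩ := hA.form
  obtain ⟨u₀, hu₀⟩ : ∃ u₀ : ℂ, α x = Submodule.Quotient.mk u₀ := by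
    obtain ⟨u, hu⟩ := Submodule.Quotient.mk_surjective _ (α x)
    exact ⟨u, hu.symm⟩
  choose S R hS hSR using fun f : Fin (n + 1) → L => exists_common hM f
  have hSne : ∀ f, ev (C (S f)) ≠ 0 := by
    intro f h0
    have h1 := (hM.ker _).1 h0
    have h2 : (C (S f) : ℂ[X][Y]).natDegree = 0 := natDegree_C _
    have h3 : (C (S f) : ℂ[X][Y]) ≠ 0 := by
      rw [Ne, C_eq_zero]
      exact hS f
    have h4 := natDegree_le_of_dvd h1 h3
    have := hM.pos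
    omega
  have hev : ∀ f, (fun k => ev (R f k)) = fun k => ev (C (S f)) * f k := by
    intro f
    funext k
    rw [← hSR f k, mul_comm]
  have hval : ∀ f (G : MvPolynomial (Fin (n + 1)) ℂ) (d : ℕ), G.IsHomogeneous d →
      val (fun k => ev (R f k)) G = ev (C (S f)) ^ d * val f G := by
    intro f G d hG
    rw [hev, val_smul hG]
  have hk : ∀ f ∈ W, ∃ k, ev (R f k) ≠ 0 := by
    intro f hf
    obtain ⟨k, hk⟩ := (hW1 f hf).1.1
    refine ⟨k, ?_⟩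
    rw [← hSR f k]
    exact mul_ne_zero hk (hSne f)
  have hFR : ∀ f ∈ W, ∀ i, val (fun k => ev (R f k)) (F i) = 0 := by
    intro f hf i
    obtain ⟨d, hd⟩ := hF i
    rw [hval f _ d hd, (hW1 f hf).1.2 _ (hF i) (hX.sub.mem i), mul_zero]
  have hHV : ∀ f ∈ W, HasValue c x fun k => ev (R f k) := by
    intro f hf
    rw [hev]
    exact Pool.Agent.W273.RG.FNW.hv_scale (hW1 f hf).1.1 (hW1 f hf).2 (hSne f)
  have h0f : ∀ f ∈ W, val f (A 0) ≠ 0 := fun f hf => (hW0 f hf).2.2.1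
  have h2f : ∀ f ∈ W, val f (A 2) ≠ 0 := fun f hf => (hW0 f hf).2.2.2
  have h0 : ∀ f ∈ W, val (fun k => ev (R f k)) (A 0) ≠ 0 := by
    intro f hf
    rw [hval f _ e (he 0)]
    exact mul_ne_zero (pow_ne_zero _ (hSne f)) (h0f f hf)
  have h2 : ∀ f ∈ W, val (fun k => ev (R f k)) (A 2) ≠ 0 := by
    intro f hf
    rw [hval f _ e (he 2)]
    exact mul_ne_zero (pow_ne_zero _ (hSne f)) (h2f f hf)
  have hOn : ∀ f ∈ W, OnVar ℂ y fun k => ev (R f k) := by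
    intro f hf
    refine ⟨hk f hf, fun H hH hyH => ?_⟩
    obtain ⟨d, hd⟩ := hH
    rw [hval f _ d hd, (hW1 f hf).1.2 _ ⟨d, hd⟩ hyH, mul_zero]
  obtain ⟨j, hj⟩ := Function.ne_iff.1 hx.1
  have hj : x j ≠ 0 := hj
  have hT : ∀ f : W, ∃ T, Pt P B₀ (R f) T := fun f => by
    obtain ⟨k, hk⟩ := hk f.1 f.2
    exact exists_pt hM hs hk
  choose T hT using hT
  have hTF : ∀ (f : W) (z y : ℂ), z ∉ B₀ → evalEval z y P = 0 → (T f z y).rep ∈ Cone F := by
    intro f z y hz hy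
    obtain ⟨k, hk⟩ := hk f.1 f.2
    exact ⟨(T f z y).rep_nonzero, fun i => pt_form hM hs (hT f) hk (hF i) (hFR f.1 f.2 i) hz hy⟩
  -- the differential forms
  obtain ⟨a, ha⟩ : ∃ a : W → L, ∀ f : W, a f = val (fun k => ev (R f k)) (A 1) /
      val (fun k => ev (R f k)) (A 0) := ⟨_, fun _ => rfl⟩
  obtain ⟨b, hb⟩ : ∃ b : W → L, ∀ f : W, b f = val (fun k => ev (R f k)) (A 2) /
      val (fun k => ev (R f k)) (A 0) := ⟨_, fun _ => rfl⟩
  have hb0 : ∀ f : W, b f ≠ 0 := fun f => by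
    rw [hb]
    exact div_ne_zero (h2 f.1 f.2) (h0 f.1 f.2)
  obtain ⟨η, hη⟩ : ∃ η : W → L, ∀ f : W, η f = D (a f) / b f := ⟨_, fun _ => rfl⟩
  have hηb : ∀ f : W, η f * b f = D (a f) := fun f => by
    rw [hη, div_mul_cancel₀ _ (hb0 f)]
  have hrel : ∀ f : W, b f ^ 2 = 4 * a f ^ 3 - algebraMap ℂ L Λ.g₂ * a f - algebraMap ℂ L Λ.g₃ := by
    intro f
    rw [ha, hb]
    exact weier_rel hX hA (hOn f.1 f.2) (h0 f.1 f.2)
  have hV : ∀ (f : W) Q, Ge Q (vo Q D) (η f) := fun f Q =>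
    eta_reg hD0 (discr_ne Λ) (hrel f) (hb0 f) (hηb f) Q
  have hE : ∀ f : W, Ell ev P B₀ Λ u₀ (η f) (fun z y => α (T f z y).rep) := by
    intro f
    obtain ⟨k, hk⟩ := hk f.1 f.2
    refine ⟨?_, fun ε hε => ?_⟩
    · exact tau_loc hM hs hk hD hF hα hA (hT f) (hFR f.1 f.2) (h0 f.1 f.2) (h2 f.1 f.2) (by
        rw [← ha, ← hb]
        exact hηb f)
    · exact tau_inf hF hα hx hu₀ (hT f) (hTF f) hj
        (fun ε hε => pt_inf s_binf hM (hHV f.1 f.2) hk hj hε) hε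
  obtain ⟨U, g₀, K', hU, hUne, hg₀, hK', hbd⟩ := unif_bound_all (u₀ := u₀) s_binf hM hs hF hα hBr hx
  have : Infinite W := hW.to_subtype
  obtain ⟨f, f', hff, B₁, hB₁⟩ := two_equal s_bfin s_binf hM hs hD hE hV hU hUne hg₀ hK'
    (fun f R' S' hRS z hz hS => by
      obtain ⟨k, hk⟩ := hk f.1 f.2
      exact hbd (R f) (T f) (hT f) k hk (hFR f.1 f.2) (hHV f.1 f.2) (η f) (hE f) R' S' hRS z hz hS)
  refine ⟨f.1, f.2, f'.1, f'.2, fun h => hff (Subtype.ext h), fun i j => ?_⟩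
  have h3 := eq_of_tau hM hF hA (hT f) (hT f') (hTF f) (hTF f') (h0 f.1 f.2) (h0 f'.1 f'.2) hB₁ i j
  rw [hval _ _ e (he i), hval _ _ e (he j), hval _ _ e (he i), hval _ _ e (he j)] at h3
  have h4 : ev (C (S f.1)) ^ e * ev (C (S f'.1)) ^ e ≠ 0 :=
    mul_ne_zero (pow_ne_zero _ (hSne _)) (pow_ne_zero _ (hSne _))
  apply mul_left_cancel₀ h4
  linear_combination h3

end Two

end Pool.Agent.H918.PF.H234P

open FF Pool.Agent.W603.LV Pool.Agent.W603.PV Pool.Agent.W602.GT Pool.Agent.N154.GG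
open Filter Topology Metric
open Pool.Agent.W602.RG (HasValue PointedMaps)
open Pool.Agent.Y216 (OnVar)
open Pool.Agent.H918.SS (ProjVariety HasReduction)
open scoped LinearAlgebra.Projectivization

namespace Pool.Agent.H918.PF

variable {L : Type} [Field L] [Algebra ℂ L] {c : Place ℂ L} {n : ℕ} {ι : Type}
  {F : ι → MvPolynomial (Fin (n + 1)) ℂ} {Λ : PeriodPair}
  {α : (Fin (n + 1) → ℂ) → ℂ ⧸ Λ.lattice} {A : Fin 3 → MvPolynomial (Fin (n + 1)) ℂ}
  {K : Type} [Field K] [Algebra ℂ K] {y : Fin (n + 1) → K}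

/-- AI-TWO -/
theorem two_maps_all [IsFF ℂ L] (hX : ProjVariety F 2 y) (hα : HolToTorus (Cone F) Λ α)
    (hA : WForms F Λ α A) (hBr : ∀ f, HolIn F f → ∀ z w, f z = f w)
    {x : Fin (n + 1) → ℂ} (hx : x ∈ Cone F) {W : Set (Fin (n + 1) → L)} (hW : W.Infinite)
    (hW1 : ∀ f ∈ W, OnVar ℂ y f ∧ HasValue c x f ∧ val f (A 0) ≠ 0 ∧ val f (A 2) ≠ 0) :
    ∃ f ∈ W, ∃ f' ∈ W, f ≠ f' ∧ ∀ i j, val f (A i) * val f' (A j) =
      val f (A j) * val f' (A i) :=
  H234P.two_maps_all' hX hα hA hBr hx hW hW1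

end Pool.Agent.H918.PF
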